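import Pool.Agent.H973.TD.B1
import Pool.Agent.H973.TD.B3
import Pool.Agent.H973.TD.B5
import Pool.Agent.H973.TD.UA
import Pool.Agent.H973.TD.UCon
import Pool.Agent.H973.TD.UCnt
import Pool.Agent.H973.TD.UNum
import Pool.Agent.H973.TD.UNumC
import Pool.Agent.H973.TD.Z2

/-!
# Minimum 2-density of graphs with bounded independence number (MP_303581_co)

`M m r` is the minimum of the 2-densities `m2 G` of the graphs `G` on `m` vertices with
independence number less than `r`; `m2 G` is the maximum of `(e(F)-1)/(v(F)-2)` over the subgraphs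
`F` of `G` with at least three vertices (the first two parts say that these maxima and minima are
attained).  The value suggested for `m = k (r-1)` is `(k+1)/2`.
-/

namespace Pool.Agent.Results.MP_303581_co.FailsForEveryK

open Pool.Agent.H973.TD

theorem result :
    -- the 2-density is a maximum
    (∀ m : ℕ, 3 ≤ m → ∀ G : SimpleGraph (Fin m),
      IsGreatest {x : ℝ | ∃ F : G.Subgraph, 3 ≤ F.verts.ncard ∧ x = d2 F} (m2 G)) ∧
    -- `M m r` is a minimum
    (∀ m r : ℕ, 3 ≤ r → r ≤ m →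
      IsLeast {x : ℝ | ∃ G : SimpleGraph (Fin m), G.indepNum < r ∧ x = m2 G} (M m r)) ∧
    -- the suggested value is wrong for every `k ≥ 3` and all `r ≥ k + 2`
    (∀ k r : ℕ, 3 ≤ k → k + 2 ≤ r → M (k * (r - 1)) r < ((k : ℝ) + 1) / 2) ∧
    -- explicit upper bound in the divisible case
    (∀ k r : ℕ, 3 ≤ k → 4 ≤ r → M (k * (r - 1)) r ≤
      ((((r : ℝ) - 1) * ((k : ℝ) + 2) * ((k : ℝ) - 1) - 2) /
        (2 * ((k : ℝ) * ((r : ℝ) - 1) - 2)))) ∧
    -- for `m` not divisible by `r - 1` the value is always smaller than `(k+1)/2`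
    (∀ k r m : ℕ, 3 ≤ k → 3 ≤ r → (k - 1) * (r - 1) < m → m < k * (r - 1) →
      M m r < ((k : ℝ) + 1) / 2) := by
  have hz2 : S_Z2 := z2 uc ua ucon ucnt unumc b1 (b3 b1 b2)
  refine ⟨b5.1, b5.2, ?_, hz2, z3 uc ua ucon ucnt unum b1s (b3 b1 b2)⟩
  intro k r hk hr
  refine lt_of_le_of_lt (hz2 k r hk (by omega)) ?_
  have hk' : (3 : ℝ) ≤ (k : ℝ) := by exact_mod_cast hk
  have hr' : (k : ℝ) + 2 ≤ (r : ℝ) := by exact_mod_cast hr
  have hpos : (0 : ℝ) < 2 * ((k : ℝ) * ((r : ℝ) - 1) - 2) := by nlinarith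
  rw [div_lt_div_iff₀ hpos (by norm_num)]
  nlinarith

end Pool.Agent.Results.MP_303581_co.FailsForEveryK
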